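import Pool.Agent.W536.LM.Stm

/-!
Project LM, local steps: `S_STEP0` and `S_STEP1` from `S_HENS`.
-/

set_option autoImplicit false

open Polynomial W536.LM

namespace Pool.Agent.W40.LM

theorem co0 (f g : PowerSeries ℝ) : PowerSeries.coeff 0 (f * g) =
    PowerSeries.coeff 0 f * PowerSeries.coeff 0 g := by
  simp [PowerSeries.coeff_mul]

theorem co1 (f g : PowerSeries ℝ) : PowerSeries.coeff 1 (f * g) =
    PowerSeries.coeff 0 f * PowerSeries.coeff 1 g +
    PowerSeries.coeff 1 f * PowerSeries.coeff 0 g := by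
  rw [PowerSeries.coeff_mul, Finset.Nat.antidiagonal_succ]
  simp

theorem co2 (f g : PowerSeries ℝ) : PowerSeries.coeff 2 (f * g) =
    PowerSeries.coeff 0 f * PowerSeries.coeff 2 g +
    PowerSeries.coeff 1 f * PowerSeries.coeff 1 g +
    PowerSeries.coeff 2 f * PowerSeries.coeff 0 g := by
  rw [PowerSeries.coeff_mul, Finset.Nat.sum_antidiagonal_eq_sum_range_succ_mk]
  simp [Finset.sum_range_succ]

theorem c1 (a : ℝ) : PowerSeries.coeff 1 (PowerSeries.C a) = 0 := by
  rw [PowerSeries.coeff_C]; simp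

theorem c2 (a : ℝ) : PowerSeries.coeff 2 (PowerSeries.C a) = 0 := by
  rw [PowerSeries.coeff_C]; simp

theorem c0 (a : ℝ) : PowerSeries.coeff 0 (PowerSeries.C a) = a := by
  rw [PowerSeries.coeff_C]; simp

theorem d1 : PowerSeries.coeff 1 (1 : PowerSeries ℝ) = 0 := by
  rw [PowerSeries.coeff_one]; simp

theorem d2 : PowerSeries.coeff 2 (1 : PowerSeries ℝ) = 0 := by
  rw [PowerSeries.coeff_one]; simp

theorem d0 : PowerSeries.coeff 0 (1 : PowerSeries ℝ) = 1 := by
  rw [PowerSeries.coeff_one]; simp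

/-- factorisation of `Ep` from the roots -/
theorem fac (l m m' e w r0 r1 : PowerSeries ℝ)
    (hb : m' * w + (w - 1) * (m - l * w) - e * w = -((m - l * w) * (r0 + r1)))
    (hc : (w - 1) * m' * w = (m - l * w) * (r0 * r1)) :
    Ep l m m' e w = C (m - l * w) * (X - C r0) * (X - C r1) := by
  unfold Ep
  rw [hb, hc]
  simp only [map_neg, map_mul, map_add, map_sub]
  ring

/-- the root equation -/
theorem root (l m m' e w r r0 r1 : PowerSeries ℝ) (hr : r = r0 ∨ r = r1)
    (hb : m' * w + (w - 1) * (m - l * w) - e * w = -((m - l * w) * (r0 + r1)))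
    (hc : (w - 1) * m' * w = (m - l * w) * (r0 * r1)) :
    (m - l * w) * (r * r) + (m' * w + (w - 1) * (m - l * w) - e * w) * r + (w - 1) * m' * w = 0 := by
  rw [hb, hc]
  rcases hr with rfl | rfl <;> ring

theorem t_STEP0 (hH : S_HENS) : S_STEP0 := by
  intro L m m' e w hm hw
  have hw' : PowerSeries.constantCoeff w = 0 := by
    rw [← PowerSeries.coeff_zero_eq_constantCoeff_apply]; exact hw
  obtain ⟨r0, r1, h0, h1, hb, hc⟩ := hH
    (PowerSeries.C m - PowerSeries.C L * w)
    (PowerSeries.C m' * w + (w - 1) * (PowerSeries.C m - PowerSeries.C L * w) -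
      PowerSeries.C e * w) ((w - 1) * PowerSeries.C m' * w) 0 1
    (by simp [hw', hm]) (by norm_num) (by simp [hw']) (by simp [hw'])
  have e0 : PowerSeries.coeff 0 r0 = 0 := by
    rw [PowerSeries.coeff_zero_eq_constantCoeff_apply]; exact h0
  have e1 : PowerSeries.coeff 0 r1 = 1 := by
    rw [PowerSeries.coeff_zero_eq_constantCoeff_apply]; exact h1
  have R0 := root _ _ _ _ _ r0 r0 r1 (Or.inl rfl) hb hc
  have R1 := root _ _ _ _ _ r1 r0 r1 (Or.inr rfl) hb hc
  have a1 := congrArg (PowerSeries.coeff 1) R0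
  have a2 := congrArg (PowerSeries.coeff 2) R0
  have b1 := congrArg (PowerSeries.coeff 1) R1
  simp only [co0, co1, co2, c0, c1, c2, d0, d1, d2, map_add, map_sub, map_zero, hw, e0, e1]
    at a1 a2 b1
  have q1 : PowerSeries.coeff 1 r0 = -(m' / m) * PowerSeries.coeff 1 w := by
    field_simp
    linear_combination -a1
  refine ⟨_, r0, r1, ?_, fac _ _ _ _ _ r0 r1 hb hc, e0, q1, ?_, e1, ?_⟩
  · simp [hw', hm]
  · have hs : m * (-(m' / m) * PowerSeries.coeff 1 w) = -(m' * PowerSeries.coeff 1 w) := by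
      field_simp
    rw [q1] at a2
    have key : m * PowerSeries.coeff 2 r0 = -(m' * PowerSeries.coeff 2 w +
        (e - L) * PowerSeries.coeff 1 w * (-(m' / m) * PowerSeries.coeff 1 w)) := by
      linear_combination (-1 : ℝ) * a2 +
        ((-(m' / m) * PowerSeries.coeff 1 w) + PowerSeries.coeff 1 w) * hs
    rw [← neg_div, ← key]
    field_simp
  · field_simp
    linear_combination b1

theorem t_STEP1 (hH : S_HENS) : S_STEP1 := by
  intro L m m' e w hmL hem hw
  have hw' : PowerSeries.constantCoeff w = 1 := by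
    rw [← PowerSeries.coeff_zero_eq_constantCoeff_apply]; exact hw
  have k1 : m - L ≠ 0 := sub_ne_zero.2 hmL
  have k2 : e - m' ≠ 0 := sub_ne_zero.2 hem
  obtain ⟨r0, r1, h0, h1, hb, hc⟩ := hH
    (PowerSeries.C m - PowerSeries.C L * w)
    (PowerSeries.C m' * w + (w - 1) * (PowerSeries.C m - PowerSeries.C L * w) -
      PowerSeries.C e * w) ((w - 1) * PowerSeries.C m' * w) 0 ((e - m') / (m - L))
    (by simp [hw', k1]) (by
      intro h
      exact (div_ne_zero k2 k1) h.symm) (by
      simp [hw']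
      field_simp
      ring) (by simp [hw'])
  have e0 : PowerSeries.coeff 0 r0 = 0 := by
    rw [PowerSeries.coeff_zero_eq_constantCoeff_apply]; exact h0
  have e1 : PowerSeries.coeff 0 r1 = (e - m') / (m - L) := by
    rw [PowerSeries.coeff_zero_eq_constantCoeff_apply]; exact h1
  have R0 := root _ _ _ _ _ r0 r0 r1 (Or.inl rfl) hb hc
  have a1 := congrArg (PowerSeries.coeff 1) R0
  simp only [co0, co1, c0, c1, d0, d1, map_add, map_sub, map_zero, hw, e0] at a1
  refine ⟨_, r0, r1, ?_, fac _ _ _ _ _ r0 r1 hb hc, e0, ?_, e1⟩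
  · simp [hw', k1]
  · field_simp
    linear_combination -a1

end Pool.Agent.W40.LM
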